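import Mathlib
import Pool.Agent.N176.SH.Stm
import Pool.Agent.N176.SH.EX

set_option autoImplicit false

/-!
# SH/SM: the second moment
-/

namespace Pool.Agent.N933.SH

open Finset Filter Topology MeasureTheory
open Pool.Agent.N176.GP (card_primes log_div_le)
open Pool.Agent.H305R2 (roughPart)
open Pool.Agent.N176.OW (cell kap VT)
open Pool.Agent.N176.SH
open Pool.Agent.N176.SH.EX (g_nonneg mhits_sub)

lemma lin_le (m : ℕ) : (m : ℝ) ≤ 2 * ((1 + 1 / 2) ^ m - 1) := by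
  have h := one_add_mul_le_pow (a := (1 / 2 : ℝ)) (by norm_num) m
  linarith

lemma sq_le (m : ℕ) : (m : ℝ) ^ 2 ≤ 8 * ((1 + 1 / 2) ^ m - 1) := by
  induction m with
  | zero => simp
  | succ m ih =>
    rw [pow_succ (1 + 1 / 2 : ℝ)]
    push_cast
    nlinarith [sq_nonneg ((m : ℝ) - 2)]

/-- the product of two terms -/
lemma pair_le (u : ℕ → ℕ) (p q : ℕ) :
    (u p : ℝ) * u q ≤ 8 * ∏ r ∈ ({p, q} : Finset ℕ), ((1 + 1 / 2 : ℝ) ^ (u r) - 1) := by
  by_cases h : p = q
  · subst h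
    rw [Finset.insert_eq_of_mem (Finset.mem_singleton_self _), Finset.prod_singleton, ← pow_two]
    exact sq_le _
  · rw [Finset.prod_pair h]
    have h1 := lin_le (u p)
    have h2 := lin_le (u q)
    have h3 : (0 : ℝ) ≤ (1 + 1 / 2 : ℝ) ^ (u p) - 1 := sub_nonneg.2 (one_le_pow₀ (by norm_num))
    have h4 : (0 : ℝ) ≤ (1 + 1 / 2 : ℝ) ^ (u q) - 1 := sub_nonneg.2 (one_le_pow₀ (by norm_num))
    calc (u p : ℝ) * u q ≤ (2 * ((1 + 1 / 2) ^ (u p) - 1)) * (2 * ((1 + 1 / 2) ^ (u q) - 1)) :=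
          mul_le_mul h1 h2 (Nat.cast_nonneg _) (by positivity)
      _ ≤ _ := by nlinarith [mul_nonneg h3 h4]

section block

variable {σ : ℕ → ℤ} {b t x z j : ℕ} {T : Finset ℕ} {C W lx : ℝ}

open Classical in
lemma notbig (hM : ∀ n, (hits σ T b t n).card ≤ ∑ p ∈ mhits σ T b t n, (1 + run σ b t p n))
    (hE : ∀ F ⊆ T, F.Nonempty → F.card ≤ 2 →
      ∑ n ∈ (cell b z t j).filter (fun n => ¬ Big σ T b t x n ∧ F ⊆ mhits σ T b t n),
        ∏ p ∈ F, ((1 + 1 / 2 : ℝ) ^ (1 + run σ b t p n) - 1) ≤ (C * (1 / 2) * F.card * lx) ^ F.card * W)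
    (hC : 0 ≤ C) (hlx : 0 ≤ lx) (hW : 0 ≤ W) :
    ∑ n ∈ (cell b z t j).filter (fun n => ¬ Big σ T b t x n), ((hits σ T b t n).card : ℝ) ^ 2 ≤
      8 * (T.card * (C * lx) + (T.card * (C * lx)) ^ 2) * W := by
  have hpt : ∀ n, ((hits σ T b t n).card : ℝ) ^ 2 ≤
      ∑ pq ∈ (T ×ˢ T).filter (fun pq => ({pq.1, pq.2} : Finset ℕ) ⊆ mhits σ T b t n),
        8 * ∏ r ∈ ({pq.1, pq.2} : Finset ℕ), ((1 + 1 / 2 : ℝ) ^ (1 + run σ b t r n) - 1) := by
    intro n
    have h1 : ((hits σ T b t n).card : ℝ) ≤ ∑ p ∈ mhits σ T b t n, ((1 + run σ b t p n : ℕ) : ℝ) := by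
      exact_mod_cast hM n
    have h2 : ((hits σ T b t n).card : ℝ) ^ 2 ≤
        (∑ p ∈ mhits σ T b t n, ((1 + run σ b t p n : ℕ) : ℝ)) ^ 2 :=
      pow_le_pow_left₀ (Nat.cast_nonneg _) h1 2
    rw [pow_two (∑ p ∈ mhits σ T b t n, ((1 + run σ b t p n : ℕ) : ℝ)), Finset.sum_mul_sum,
      ← Finset.sum_product'] at h2
    refine h2.trans ?_
    refine (Finset.sum_le_sum fun pq _ => pair_le (fun p => 1 + run σ b t p n) pq.1 pq.2).trans ?_
    refine Finset.sum_le_sum_of_subset_of_nonneg ?_ fun pq _ _ => ?_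
    · intro pq hpq
      rw [Finset.mem_product] at hpq
      rw [Finset.mem_filter, Finset.mem_product]
      refine ⟨⟨mhits_sub n hpq.1, mhits_sub n hpq.2⟩, ?_⟩
      intro r hr
      rw [Finset.mem_insert, Finset.mem_singleton] at hr
      rcases hr with rfl | rfl
      · exact hpq.1
      · exact hpq.2
    · exact mul_nonneg (by norm_num) (Finset.prod_nonneg fun r _ => g_nonneg (by norm_num) r n)
  have hsw : ∑ n ∈ (cell b z t j).filter (fun n => ¬ Big σ T b t x n),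
      ∑ pq ∈ (T ×ˢ T).filter (fun pq => ({pq.1, pq.2} : Finset ℕ) ⊆ mhits σ T b t n),
        8 * ∏ r ∈ ({pq.1, pq.2} : Finset ℕ), ((1 + 1 / 2 : ℝ) ^ (1 + run σ b t r n) - 1) =
      ∑ pq ∈ T ×ˢ T, ∑ n ∈ (cell b z t j).filter
        (fun n => ¬ Big σ T b t x n ∧ ({pq.1, pq.2} : Finset ℕ) ⊆ mhits σ T b t n),
        8 * ∏ r ∈ ({pq.1, pq.2} : Finset ℕ), ((1 + 1 / 2 : ℝ) ^ (1 + run σ b t r n) - 1) := by
    apply Finset.sum_comm'
    intro n F
    simp only [Finset.mem_filter]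
    tauto
  refine (Finset.sum_le_sum fun n _ => hpt n).trans ?_
  rw [hsw]
  have h3 : ∀ pq ∈ T ×ˢ T, ∑ n ∈ (cell b z t j).filter
        (fun n => ¬ Big σ T b t x n ∧ ({pq.1, pq.2} : Finset ℕ) ⊆ mhits σ T b t n),
        8 * ∏ r ∈ ({pq.1, pq.2} : Finset ℕ), ((1 + 1 / 2 : ℝ) ^ (1 + run σ b t r n) - 1) ≤
      8 * ((if pq.1 = pq.2 then C * lx else 0) + (C * lx) ^ 2) * W := by
    intro pq hpq
    rw [Finset.mem_product] at hpq
    rw [← Finset.mul_sum, mul_assoc]
    refine mul_le_mul_of_nonneg_left ?_ (by norm_num)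
    have hsub : ({pq.1, pq.2} : Finset ℕ) ⊆ T := by
      intro r hr
      rw [Finset.mem_insert, Finset.mem_singleton] at hr
      rcases hr with rfl | rfl
      · exact hpq.1
      · exact hpq.2
    refine (hE _ hsub (Finset.insert_nonempty _ _) Finset.card_le_two).trans ?_
    refine mul_le_mul_of_nonneg_right ?_ hW
    have hCl : 0 ≤ C * lx := by positivity
    split_ifs with h
    · rw [h, Finset.insert_eq_of_mem (Finset.mem_singleton_self _), Finset.card_singleton]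
      push_cast
      nlinarith [sq_nonneg (C * lx)]
    · rw [Finset.card_pair h]
      push_cast
      nlinarith
  refine (Finset.sum_le_sum h3).trans (le_of_eq ?_)
  rw [← Finset.sum_mul, ← Finset.mul_sum, Finset.sum_product, Finset.sum_congr rfl
    (g := fun p => C * lx + T.card * (C * lx) ^ 2) (fun p hp => by
      rw [Finset.sum_add_distrib, Finset.sum_const, nsmul_eq_mul, Finset.sum_ite_eq, if_pos hp]),
    Finset.sum_const, nsmul_eq_mul]
  ring

end block

open Classical in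
theorem sm (h4 : S_E4) (hR : S_RB) (hM : S_MH) : S_SM := by
  intro b A σ hok
  have hb := hok.hb
  obtain ⟨C, hC1, P1, h4⟩ := h4 b A σ hok
  obtain ⟨c1, hc1, P2, hR⟩ := hR b A σ hok
  obtain ⟨C3, hC3, hcard⟩ := card_primes
  have hC0 : 0 < C := by linarith
  have hlog : Tendsto (fun x : ℕ => Real.log x) atTop atTop :=
    Real.tendsto_log_atTop.comp tendsto_natCast_atTop_atTop
  have hcast : Tendsto (fun x : ℕ => (x : ℝ)) atTop atTop := tendsto_natCast_atTop_atTop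
  have hev : ∀ᶠ x : ℕ in atTop, P1 ≤ x ∧ P2 ≤ x ∧ 2 ≤ x ∧ 4 ≤ Real.log x ∧
      48 / c1 ^ 4 ≤ (x : ℝ) := by
    filter_upwards [eventually_ge_atTop P1, eventually_ge_atTop P2, eventually_ge_atTop 2,
      hlog.eventually_ge_atTop 4, hcast.eventually_ge_atTop (48 / c1 ^ 4)] with x g1 g2 g3 g4 g7
    exact ⟨g1, g2, g3, g4, g7⟩
  obtain ⟨P, hP⟩ := eventually_atTop.1 hev
  refine ⟨1 + 8 * (2 * C + 2 * C ^ 2 * C3), by positivity, P, ?_⟩
  intro x hx T hT z hz t ht j hj1 hj2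
  obtain ⟨hx1, hx2, hx3, hL4, hx12⟩ := hP x hx
  have hx0 : (0 : ℝ) < x := by
    have : (2 : ℝ) ≤ x := by exact_mod_cast hx3
    linarith
  set L : ℝ := Real.log x with hLd
  have hL0 : 0 < L := by linarith
  have hL1 : 1 ≤ L := by linarith
  set lx : ℝ := L / x with hlxd
  have hlx0 : 0 < lx := by positivity
  set W : ℝ := (b : ℝ) ^ (t - z) with hWd
  have hb0 : (0 : ℝ) < b := by
    have : (2 : ℝ) ≤ b := by exact_mod_cast hb
    linarith
  have hW0 : 0 < W := by positivity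
  have hT' : ∀ p ∈ T, x < p ∧ p ≤ 2 * x := fun p hp => (hT p hp).2
  have hMn : ∀ n, (hits σ T b t n).card ≤ ∑ p ∈ mhits σ T b t n, (1 + run σ b t p n) :=
    fun n => hM σ b t n T hb (fun p hp => (hT' p hp).2.trans ht)
  have hE : ∀ F ⊆ T, F.Nonempty → F.card ≤ 2 →
      ∑ n ∈ (cell b z t j).filter (fun n => ¬ Big σ T b t x n ∧ F ⊆ mhits σ T b t n),
        ∏ p ∈ F, ((1 + 1 / 2 : ℝ) ^ (1 + run σ b t p n) - 1) ≤ (C * (1 / 2) * F.card * lx) ^ F.card * W :=
    fun F hFT hF hFK => h4 x hx1 T hT' z hz t ht j hj1 (1 / 2) (by norm_num) le_rfl F hFT hF (by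
      have h5 : (F.card : ℝ) ≤ 2 := by exact_mod_cast hFK
      calc (F.card : ℝ) ^ 2 ≤ 2 ^ 2 := pow_le_pow_left₀ (Nat.cast_nonneg _) h5 2
        _ ≤ L := by linarith)
  -- the weights
  have hT3 : lx * T.card ≤ C3 := by
    have h5 := hcard x hx3 T hT
    calc lx * T.card ≤ lx * (C3 * x / L) := mul_le_mul_of_nonneg_left h5 hlx0.le
      _ = C3 := by
        rw [hlxd]
        field_simp
  have hV2 : lx * T.card ≤ 2 * VT T := by
    have h5 : T.card • (L / (2 * x)) ≤ VT T := by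
      unfold VT
      refine Finset.card_nsmul_le_sum _ _ _ fun p hp => ?_
      obtain ⟨g1, g2⟩ := hT' p hp
      have g3 : (x : ℝ) ≤ p := by exact_mod_cast g1.le
      have g4 : (p : ℝ) ≤ 2 * x := by exact_mod_cast g2
      have g5 : L ≤ Real.log p := Real.log_le_log hx0 g3
      exact div_le_div₀ (by linarith) g5 (by linarith) g4
    rw [nsmul_eq_mul] at h5
    have h6 : (T.card : ℝ) * (L / (2 * x)) = (lx * T.card) / 2 := by
      rw [hlxd]
      field_simp
    linarith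
  have hlT : 0 ≤ lx * T.card := by positivity
  have hV0 : 0 ≤ VT T := by linarith
  rcases T.eq_empty_or_nonempty with rfl | hTne
  · have h5 : ∀ n, (hits σ ∅ b t n).card = 0 := fun n => by
      unfold hits
      rw [Finset.filter_empty, Finset.card_empty]
    have h6 : VT ∅ = 0 := Finset.sum_empty
    rw [h6, mul_zero, zero_mul]
    refine le_of_eq (Finset.sum_eq_zero fun n _ => ?_)
    rw [h5]
    norm_num
  have hS1 := notbig (x := x) (z := z) (j := j) hMn hE hC0.le hlx0.le hW0.le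
  set cB : ℝ := (((cell b z t j).filter (fun n => Big σ T b t x n)).card : ℝ) with hcBd
  have hS3 : cB ≤ Real.exp (-(c1 * x)) * W := hR x hx2 T hT' z hz t ht j hj1 hj2
  have hcB0 : 0 ≤ cB := Nat.cast_nonneg _
  have hTx : T.card ≤ x := by
    have h5 : T ⊆ Finset.Ioc x (2 * x) := fun p hp => Finset.mem_Ioc.2 (hT' p hp)
    have h6 := Finset.card_le_card h5
    rw [Nat.card_Ioc] at h6
    omega
  have hS2 : ∑ n ∈ (cell b z t j).filter (fun n => Big σ T b t x n), ((hits σ T b t n).card : ℝ) ^ 2 ≤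
      cB * (x : ℝ) ^ 2 := by
    have h5 : ∀ n ∈ (cell b z t j).filter (fun n => Big σ T b t x n),
        ((hits σ T b t n).card : ℝ) ^ 2 ≤ (x : ℝ) ^ 2 := by
      intro n _
      refine pow_le_pow_left₀ (Nat.cast_nonneg _) ?_ 2
      have h6 : (hits σ T b t n).card ≤ T.card := Finset.card_le_card (Finset.filter_subset _ _)
      exact_mod_cast h6.trans hTx
    refine (Finset.sum_le_card_nsmul _ _ _ h5).trans ?_
    rw [nsmul_eq_mul]
  have hC' : cB * (x : ℝ) ^ 2 ≤ VT T * W := by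
    have g2 : 1 / (2 * x) ≤ VT T := by
      have h5 : (1 : ℝ) ≤ T.card := by exact_mod_cast Finset.card_pos.2 hTne
      have h6 : lx ≤ lx * T.card := le_mul_of_one_le_right hlx0.le h5
      have h7 : 1 / x ≤ lx := by
        rw [hlxd]
        exact div_le_div_of_nonneg_right hL1 hx0.le
      have h8 : 1 / (2 * (x : ℝ)) = (1 / x) / 2 := by
        field_simp
      rw [h8]
      linarith
    have g3 : 2 * (x : ℝ) ^ 3 * Real.exp (-(c1 * x)) ≤ 1 := by
      have h5 : (c1 * x) ^ 4 / (Nat.factorial 4 : ℕ) ≤ Real.exp (c1 * x) :=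
        Real.pow_div_factorial_le_exp _ (by positivity) 4
      have h6 : ((Nat.factorial 4 : ℕ) : ℝ) = 24 := by norm_num [Nat.factorial]
      rw [h6] at h5
      rw [Real.exp_neg, ← div_eq_mul_inv, div_le_one (Real.exp_pos _)]
      refine le_trans ?_ h5
      rw [div_le_iff₀ (by positivity)] at hx12
      rw [le_div_iff₀ (by norm_num), mul_pow]
      have h7 : (0 : ℝ) ≤ (x : ℝ) ^ 3 := by positivity
      nlinarith [mul_le_mul_of_nonneg_right hx12 h7]
    calc cB * (x : ℝ) ^ 2 ≤ (Real.exp (-(c1 * x)) * W) * (x : ℝ) ^ 2 :=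
          mul_le_mul_of_nonneg_right hS3 (by positivity)
      _ = (2 * (x : ℝ) ^ 3 * Real.exp (-(c1 * x))) * (1 / (2 * x)) * W := by
          field_simp
      _ ≤ 1 * (1 / (2 * x)) * W := by gcongr
      _ ≤ VT T * W := by
          rw [one_mul]
          exact mul_le_mul_of_nonneg_right g2 hW0.le
  have hmain : 8 * (T.card * (C * lx) + (T.card * (C * lx)) ^ 2) ≤
      8 * (2 * C + 2 * C ^ 2 * C3) * VT T := by
    have e1 : (T.card : ℝ) * (C * lx) + (T.card * (C * lx)) ^ 2 =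
        C * (lx * T.card) + C ^ 2 * ((lx * T.card) * (lx * T.card)) := by ring
    rw [e1]
    have e2 : (lx * T.card) * (lx * T.card) ≤ C3 * (2 * VT T) :=
      mul_le_mul hT3 hV2 hlT hC3.le
    have e3 : C * (lx * T.card) ≤ C * (2 * VT T) := mul_le_mul_of_nonneg_left hV2 hC0.le
    have e4 : C ^ 2 * ((lx * T.card) * (lx * T.card)) ≤ C ^ 2 * (C3 * (2 * VT T)) :=
      mul_le_mul_of_nonneg_left e2 (by positivity)
    nlinarith
  rw [← Finset.sum_filter_add_sum_filter_not _ (fun n => Big σ T b t x n)]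
  calc _ ≤ cB * (x : ℝ) ^ 2 + 8 * (T.card * (C * lx) + (T.card * (C * lx)) ^ 2) * W :=
        add_le_add hS2 hS1
    _ ≤ VT T * W + 8 * (2 * C + 2 * C ^ 2 * C3) * VT T * W :=
        add_le_add hC' (mul_le_mul_of_nonneg_right hmain hW0.le)
    _ = _ := by ring

end Pool.Agent.N933.SH
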